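import Pool.Agent.V1193.Weighted

/-!
# Every bounded sequence admits fully monotonic admissible weights

The weights are `l n = ∑ k, ε k * (1 - ε k) ^ n` with `ε k = 2 ^ (-(φ k + 1))`, where `φ` is a strictly
increasing sequence along which the Abel means of the given sequence converge.
-/

set_option autoImplicit false

namespace Pool.Agent.Results.MP_968b24_an.FullyMonotonicWeights

open Pool.Agent.V1193.Weighted

/-- Every bounded real sequence admits a weight sequence that is positive, has divergent sum, makes
the weighted means converge, is fully monotonic and (hence) nonincreasing. -/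
theorem result (s : ℕ → ℝ) (hs : BoundedSeq s) :
    ∃ (l : ℕ → ℝ) (L : ℝ), AdmissibleWithLimit s l L ∧ FullyMonotonic l ∧ Antitone l := by
  obtain ⟨l, L, h1, h2⟩ := exists_fully hs
  refine ⟨l, L, h1, h2, antitone_nat_of_succ_le fun n => ?_⟩
  have h3 := h2 1 n le_rfl
  simp only [Function.iterate_one, delta] at h3
  linarith

end Pool.Agent.Results.MP_968b24_an.FullyMonotonicWeights
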