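import Pool.Agent.V1193.Weighted

/-!
# Two fully monotonic weight sequences with different limits

The sequence is `1` on the blocks `[2 ^ 2 ^ i, 2 ^ 2 ^ (i + 1))` with `i` even and `0` elsewhere.
-/

set_option autoImplicit false

namespace Pool.Agent.Results.MP_968b24_an.TwoLimits

open Pool.Agent.V1193.Weighted

/-- There is a sequence with terms in `{0, 1}` and two fully monotonic admissible weight sequences
for it whose weighted means have the limits `0` and `1`. -/
theorem result : ∃ s : ℕ → ℝ, (∀ n, s n = 0 ∨ s n = 1) ∧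
    (∃ l : ℕ → ℝ, AdmissibleWithLimit s l 0 ∧ FullyMonotonic l) ∧
    (∃ l : ℕ → ℝ, AdmissibleWithLimit s l 1 ∧ FullyMonotonic l) := by
  obtain ⟨h0, h1, h2, h3⟩ := two_limits
  exact ⟨sq, sq_mem, ⟨_, h0, h2⟩, ⟨_, h1, h3⟩⟩

end Pool.Agent.Results.MP_968b24_an.TwoLimits
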